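import Pool.Agent.P8H79.Iso.Typ
import Pool.Agent.P8H79.Iso.Tab

/-!
Two compact hyperbolic surfaces of genus three which are isospectral and not isometric.
-/

set_option autoImplicit false

namespace Pool.Agent.Results.MP_d2545a_gt.GenusThree

open Pool.Agent.P8H79.Iso

/-- There are two torsion-free cocompact orientation-preserving Fuchsian groups of genus 3
(abelianization `ℤ⁶`) whose quotients have equal hyperbolic Laplace eigenspace dimensions for every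
eigenvalue, yet no isometry of the hyperbolic plane conjugates one group onto the other. -/
theorem result :
  ∃ Γ₁ Γ₂ : Subgroup (UpperHalfPlane ≃ᵢ UpperHalfPlane),
    (∀ Γ ∈ ({Γ₁, Γ₂} : Set (Subgroup (UpperHalfPlane ≃ᵢ UpperHalfPlane))),
      (∀ γ ∈ Γ, ∃ a b c d : ℝ, a * d - b * c = 1 ∧
          ∀ z : UpperHalfPlane,
            ((γ z : UpperHalfPlane) : ℂ) = ((a : ℂ) * (z : ℂ) + (b : ℂ)) / ((c : ℂ) * (z : ℂ) + (d : ℂ))) ∧
      (∀ γ ∈ Γ, γ ≠ 1 → ∀ z : UpperHalfPlane, γ z ≠ z) ∧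
      (∀ K : Set UpperHalfPlane, IsCompact K →
          {γ : UpperHalfPlane ≃ᵢ UpperHalfPlane | γ ∈ Γ ∧ (⇑γ '' K ∩ K).Nonempty}.Finite) ∧
      (∃ K : Set UpperHalfPlane, IsCompact K ∧ ∀ z : UpperHalfPlane, ∃ γ ∈ Γ, γ z ∈ K) ∧
      Nonempty (Abelianization Γ ≃* Multiplicative (Fin 6 → ℤ))) ∧
    (∀ μ : ℝ,
      Module.rank ℝ (Submodule.span ℝ {f : UpperHalfPlane → ℝ | ∃ F : ℂ → ℝ,
          ContDiffOn ℝ 2 F {w : ℂ | 0 < w.im} ∧
          (∀ z : UpperHalfPlane, f z = F (z : ℂ)) ∧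
          (∀ γ ∈ Γ₁, ∀ z : UpperHalfPlane, f (γ z) = f z) ∧
          ∀ z : UpperHalfPlane,
            -((z : ℂ).im ^ 2 * (iteratedFDeriv ℝ 2 F (z : ℂ) ![1, 1]
              + iteratedFDeriv ℝ 2 F (z : ℂ) ![Complex.I, Complex.I])) = μ * f z})
      =
      Module.rank ℝ (Submodule.span ℝ {f : UpperHalfPlane → ℝ | ∃ F : ℂ → ℝ,
          ContDiffOn ℝ 2 F {w : ℂ | 0 < w.im} ∧
          (∀ z : UpperHalfPlane, f z = F (z : ℂ)) ∧
          (∀ γ ∈ Γ₂, ∀ z : UpperHalfPlane, f (γ z) = f z) ∧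
          ∀ z : UpperHalfPlane,
            -((z : ℂ).im ^ 2 * (iteratedFDeriv ℝ 2 F (z : ℂ) ![1, 1]
              + iteratedFDeriv ℝ 2 F (z : ℂ) ![Complex.I, Complex.I])) = μ * f z})) ∧
    ¬ ∃ φ : UpperHalfPlane ≃ᵢ UpperHalfPlane,
        ∀ γ : UpperHalfPlane ≃ᵢ UpperHalfPlane, γ ∈ Γ₁ ↔ φ * γ * φ⁻¹ ∈ Γ₂ := by
  refine ⟨D1.Gam, D2.Gam, ?_, fun μ => ?_, not_conj⟩
  · have key : ∀ D : Dat,
        (∀ γ ∈ D.Gam, ∃ a b c d : ℝ, a * d - b * c = 1 ∧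
          ∀ z : UpperHalfPlane,
            ((γ z : UpperHalfPlane) : ℂ) =
              ((a : ℂ) * (z : ℂ) + (b : ℂ)) / ((c : ℂ) * (z : ℂ) + (d : ℂ))) ∧
        (∀ γ ∈ D.Gam, γ ≠ 1 → ∀ z : UpperHalfPlane, γ z ≠ z) ∧
        (∀ K : Set UpperHalfPlane, IsCompact K →
          {γ : UpperHalfPlane ≃ᵢ UpperHalfPlane | γ ∈ D.Gam ∧ (⇑γ '' K ∩ K).Nonempty}.Finite) ∧
        (∃ K : Set UpperHalfPlane, IsCompact K ∧ ∀ z : UpperHalfPlane, ∃ γ ∈ D.Gam, γ z ∈ K) ∧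
        Nonempty (Abelianization D.Gam ≃* Multiplicative (Fin 6 → ℤ)) :=
      fun D => ⟨fun γ hγ => D.gam_moebius hγ, fun γ hγ hne z => D.gam_free hγ hne z,
        fun K hK => D.gam_proper hK, D.gam_cocompact, D.gam_abel⟩
    intro Γ hΓ
    rcases hΓ with rfl | hΓ
    · exact key D1
    · rw [Set.mem_singleton_iff.1 hΓ]
      exact key D2
  · rw [D1.span_eq μ, D2.span_eq μ]
    exact (iso μ).rank_eq

end Pool.Agent.Results.MP_d2545a_gt.GenusThree
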